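import Pool.Agent.H17.UN.Tow

/-!
# Board uto_modules, row DRT: the roots of `P Q`
-/

set_option autoImplicit false

open Polynomial
open Pool.Agent.H17.UN

namespace Pool.Agent.H42.UN

theorem pf_DRT : T_DRT := by
  intro K _ _ P Q e c c' p0 hd
  have hP0 : P ≠ 0 := by
    intro h
    have := hd.dP
    rw [h, natDegree_zero] at this
    omega
  have hQ0 : Q ≠ 0 := by
    intro h
    have := hd.dQ
    rw [h, natDegree_zero] at this
    omega
  have hroots : ∀ (k : Type) [Field k] [Algebra K k] (a : k),
      ((P.map (algebraMap K k)) * (Q.map (algebraMap K k))).eval a = 0 →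
      ∃ i, algebraMap K k (e i) = a := by
    intro k _ _ a ha
    classical
    by_contra h
    push Not at h
    have hinj : Function.Injective (algebraMap K k) := (algebraMap K k).injective
    have hP1 : P.map (algebraMap K k) ≠ 0 := (Polynomial.map_ne_zero_iff hinj).2 hP0
    have hQ1 : Q.map (algebraMap K k) ≠ 0 := (Polynomial.map_ne_zero_iff hinj).2 hQ0
    have hR0 : (P.map (algebraMap K k)) * (Q.map (algebraMap K k)) ≠ 0 := mul_ne_zero hP1 hQ1
    have hdeg : ((P.map (algebraMap K k)) * (Q.map (algebraMap K k))).natDegree = 5 := by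
      rw [natDegree_mul hP1 hQ1, natDegree_map, natDegree_map, hd.dP, hd.dQ]
    set T : Finset k := Finset.univ.image (fun i => algebraMap K k (e i)) with hT
    have hTc : T.card = 5 := by
      have hi : Function.Injective fun i => algebraMap K k (e i) := hinj.comp hd.inj
      rw [hT, Finset.card_image_of_injective _ hi, Finset.card_univ, Fintype.card_fin]
    have haT : a ∉ T := by
      rw [hT, Finset.mem_image]
      rintro ⟨i, -, hi⟩
      exact h i hi
    have hsub : insert a T ⊆
        ((P.map (algebraMap K k)) * (Q.map (algebraMap K k))).roots.toFinset := by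
      intro x hx
      rw [Multiset.mem_toFinset, mem_roots hR0, IsRoot.def]
      rw [Finset.mem_insert] at hx
      rcases hx with rfl | hx
      · exact ha
      · rw [hT, Finset.mem_image] at hx
        obtain ⟨i, -, rfl⟩ := hx
        rw [eval_mul, eval_map_algebraMap, eval_map_algebraMap, aeval_algebraMap_apply,
          aeval_algebraMap_apply, ← map_mul]
        rcases hd.rts i with ⟨h1, -⟩ | ⟨h1, -⟩
        · rw [coe_aeval_eq_eval, h1, zero_mul, map_zero]
        · rw [coe_aeval_eq_eval, h1, mul_zero, map_zero]
    have h1 := Finset.card_le_card hsub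
    rw [Finset.card_insert_of_notMem haT, hTc] at h1
    have h2 := Multiset.toFinset_card_le
      ((P.map (algebraMap K k)) * (Q.map (algebraMap K k))).roots
    have h3 := card_roots' ((P.map (algebraMap K k)) * (Q.map (algebraMap K k)))
    rw [hdeg] at h3
    omega
  have hcop : IsCoprime P Q := hd.sep.isCoprime
  have hnot : ∀ a : K, P.eval a = 0 → Q.eval a = 0 → False := by
    intro a h1 h2
    obtain ⟨A, B, hAB⟩ := hcop
    have h3 := congrArg (eval a) hAB
    rw [eval_add, eval_mul, eval_mul, h1, h2, mul_zero, mul_zero, add_zero, eval_one] at h3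
    exact zero_ne_one h3
  refine ⟨fun i h0 => ?_, ?_, ?_, hroots⟩
  · rcases hd.rts i with ⟨h1, h2⟩ | ⟨h1, h2⟩
    · exact hnot (e i) h1 (h2 ▸ h0)
    · exact hnot (e i) (h2 ▸ h0) h1
  · rw [hd.inf]
    exact leadingCoeff_ne_zero.2 hQ0
  · intro h1
    obtain ⟨i, hi⟩ := hroots K 1 (by
      rw [eval_mul, Algebra.algebraMap_self, Polynomial.map_id, Polynomial.map_id, h1, mul_zero])
    exact hd.one i hi

end Pool.Agent.H42.UN
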