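import Pool.Agent.H17.UN.Tow

/-!
# Board uto_modules, row TRW: the last variable is transcendental
-/

set_option autoImplicit false

open Polynomial
open Pool.Agent.H17.UN

namespace Pool.Agent.H42.UN

theorem pf_TRW : T_TRW := by
  intro K L _ _ _ _ P Q e c c' p0 F Kb Ω0 Ω s y z v X Y X' Y' w hd hT
  set x : Fin 10 → L := ![s, z, v, Y 0, Y 1, Y 2, Y 3, Y 4, Y', w] with hx
  have hind : AlgebraicIndependent K x := hT.ind
  set S : Set L := x '' ({9}ᶜ : Set (Fin 10)) with hS
  have h1 : Transcendental (Algebra.adjoin K S) (x 9) :=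
    hind.transcendental_adjoin (s := ({9}ᶜ : Set (Fin 10))) (i := 9) (by simp)
  have h2 : Transcendental (IntermediateField.adjoin K S) (x 9) :=
    IntermediateField.transcendental_adjoin_iff.2 h1
  have hmem : ∀ i : Fin 10, i ≠ 9 → x i ∈ IntermediateField.adjoin K S := fun i hi =>
    IntermediateField.subset_adjoin K S ⟨i, by simpa using hi, rfl⟩
  set T0 : IntermediateField K L := IntermediateField.adjoin K S with hT0
  have ms : s ∈ T0 := hmem 0 (by decide)
  have mz : z ∈ T0 := hmem 1 (by decide)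
  have mv : v ∈ T0 := hmem 2 (by decide)
  have mY' : Y' ∈ T0 := hmem 8 (by decide)
  have mY : ∀ i, Y i ∈ T0 := by
    intro i
    fin_cases i
    · exact hmem 3 (by decide)
    · exact hmem 4 (by decide)
    · exact hmem 5 (by decide)
    · exact hmem 6 (by decide)
    · exact hmem 7 (by decide)
  have halg : ∀ a ∈ T0, IsAlgebraic T0 a := fun a ha =>
    isAlgebraic_algebraMap (⟨a, ha⟩ : T0)
  have hev : ∀ R : K[X], aeval s R ∈ T0 := by
    intro R
    have h := (aeval (⟨s, ms⟩ : T0) R).2
    rwa [← IntermediateField.aeval_coe] at h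
  have hK : ∀ a : K, algebraMap K L a ∈ T0 := fun a => T0.algebraMap_mem a
  have ay : IsAlgebraic T0 y := by
    refine IsAlgebraic.of_pow (n := 2) two_pos ?_
    rw [hT.con]
    exact halg _ (T0.add_mem (hev P) (T0.mul_mem (hev Q) (pow_mem mz 2)))
  have aX : ∀ i, IsAlgebraic T0 (X i) := by
    intro i
    refine IsAlgebraic.of_pow (n := 2) two_pos ?_
    have h3 : algebraMap K L (1 - e i) ≠ 0 := by
      rw [Ne, map_eq_zero, sub_eq_zero]
      exact fun h => hd.one i h.symm
    have h4 : X i ^ 2 = (s * v - algebraMap K L (e i) * v) / algebraMap K L (1 - e i) +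
        algebraMap K L (c i) * Y i ^ 2 := by
      rw [hT.eqs i, mul_div_cancel_left₀ _ h3, sub_add_cancel]
    rw [h4]
    exact halg _ (T0.add_mem (T0.div_mem (T0.sub_mem (T0.mul_mem ms mv)
      (T0.mul_mem (hK _) mv)) (hK _)) (T0.mul_mem (hK _) (pow_mem (mY i) 2)))
  have aX' : IsAlgebraic T0 X' := by
    refine IsAlgebraic.of_pow (n := 2) two_pos ?_
    have h4 : X' ^ 2 = v + algebraMap K L c' * Y' ^ 2 := by
      rw [hT.inf, sub_add_cancel]
    rw [h4]
    exact halg _ (T0.add_mem mv (T0.mul_mem (hK _) (pow_mem mY' 2)))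
  -- the algebraic closure of `T0`
  have hle : Ω0 ≤ (algebraicClosure T0 L).restrictScalars K := by
    rw [hT.hΩ0, IntermediateField.adjoin_le_iff]
    have hm : ∀ a : L, IsAlgebraic T0 a → a ∈ (algebraicClosure T0 L).restrictScalars K :=
      fun a ha => (mem_algebraicClosure_iff (F := T0) (E := L)).2 ha
    rintro a (ha | ha)
    · simp only [Set.mem_insert_iff, Set.mem_singleton_iff] at ha
      rcases ha with rfl | rfl | rfl | rfl | rfl | rfl
      · exact hm _ (halg _ ms)
      · exact hm _ ay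
      · exact hm _ (halg _ mz)
      · exact hm _ (halg _ mv)
      · exact hm _ aX'
      · exact hm _ (halg _ mY')
    · rcases ha with ⟨i, rfl⟩ | ⟨i, rfl⟩
      · exact hm _ (aX i)
      · exact hm _ (halg _ (mY i))
  intro hw
  obtain ⟨p, hp, hpw⟩ := hw
  have h5 : IsAlgebraic (algebraicClosure T0 L) w := by
    let i : Ω0 →+* algebraicClosure T0 L := Subring.inclusion (S := Ω0.toSubfield.toSubring)
      (T := (algebraicClosure T0 L).toSubfield.toSubring) hle
    refine ⟨p.map i, (Polynomial.map_ne_zero_iff i.injective).2 hp, ?_⟩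
    rw [aeval_def, eval₂_map]
    exact hpw
  have h6 : IsAlgebraic T0 w := h5.restrictScalars T0
  exact h2 h6

end Pool.Agent.H42.UN
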