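import Pool.Agent.H8.UN.Targets

/-!
# Finite sets of numbers are coded
-/

set_option autoImplicit false

namespace Pool.Agent.H42.UN

open Pool.Agent.H8.UN

private lemma cop {k i j : ℕ} (hi : i < k) (hj : j < k) (hij : i ≠ j) :
    Nat.Coprime ((i + 1) * k.factorial + 1) ((j + 1) * k.factorial + 1) := by
  rcases lt_or_gt_of_ne hij with h | h
  · exact Nat.coprime_mul_succ (Nat.dvd_factorial (by omega) (by omega))
  · exact (Nat.coprime_mul_succ (Nat.dvd_factorial (by omega) (by omega))).symm

/-- finite sets of numbers are coded -/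
theorem pf_fs : N_FS := by
  classical
  intro k p
  refine ⟨∏ i ∈ (Finset.range k).filter p, ((i + 1) * k.factorial + 1), k.factorial,
    Nat.factorial_pos k, fun j hj => ?_⟩
  have key : ((j + 1) * k.factorial + 1) ∣ ∏ i ∈ (Finset.range k).filter p,
      ((i + 1) * k.factorial + 1) ↔ p j := by
    constructor
    · intro h
      by_contra hp
      have h1 : Nat.Coprime ((j + 1) * k.factorial + 1) (∏ i ∈ (Finset.range k).filter p,
          ((i + 1) * k.factorial + 1)) := by
        refine Nat.Coprime.prod_right fun i hi => ?_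
        obtain ⟨hi1, hi2⟩ := Finset.mem_filter.1 hi
        refine cop hj (Finset.mem_range.1 hi1) ?_
        rintro rfl
        exact hp hi2
      have h2 := Nat.Coprime.eq_one_of_dvd h1 h
      have h3 : 0 < (j + 1) * k.factorial := Nat.mul_pos (Nat.succ_pos j) (Nat.factorial_pos k)
      omega
    · intro hp
      exact Finset.dvd_prod_of_mem (fun i => (i + 1) * k.factorial + 1)
        (Finset.mem_filter.2 ⟨Finset.mem_range.2 hj, hp⟩)
  rw [← key]
  unfold bt
  rw [add_comm 1]

end Pool.Agent.H42.UN
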